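import Pool.Agent.Helper16_WX.Final

set_option autoImplicit false

namespace Pool.Agent.Results.MP_c978f4_al.AutConj

/-- Let `F` be a field of characteristic `0` and let `X` be an infinite set of commuting variables
(for instance a countably infinite one). Every automorphism `ψ` of the Lie algebra
`W_X(F) = Der_F F[X]` is conjugation `D ↦ φ ∘ D ∘ φ⁻¹` by an `F`-algebra automorphism `φ` of
`F[X]`. -/
theorem result.{u, v} {X : Type u} [Infinite X] {F : Type v} [Field F] [CharZero F]
    (ψ : Derivation F (MvPolynomial X F) (MvPolynomial X F) ≃ₗ⁅F⁆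
      Derivation F (MvPolynomial X F) (MvPolynomial X F)) :
    ∃ φ : MvPolynomial X F ≃ₐ[F] MvPolynomial X F,
      ∀ (D : Derivation F (MvPolynomial X F) (MvPolynomial X F)) (f : MvPolynomial X F),
        ψ D f = φ (D (φ.symm f)) :=
  Pool.Agent.Helper16_WX.aut_eq_conj ψ

end Pool.Agent.Results.MP_c978f4_al.AutConj
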